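import Pool.Agent.MP_1c76f0_nt.Mg.Words

namespace Pool.Agent.Results.MP_1c76f0_nt.Complexity

open Finset Filter Pool.Agent.MP_1c76f0_nt

theorem result : ∀ d : ℕ → ℕ, (∀ k, d k = 1 ∨ d k = 2) →
    (∀ n : ℕ, 2 ^ n ∣ ∑ k ∈ Finset.range n, d k * 10 ^ k) →
    Tendsto (fun n : ℕ =>
      (Set.ncard {w : Fin n → ℕ | ∃ i : ℕ, ∀ j : Fin n, w j = d (i + j)} : ℝ) / (n : ℝ))
      atTop atTop := by
  intro d hd h2
  have h3 : ∀ m, (2 : ℤ) ^ m ∣ tv d m := fun m => by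
    unfold tv
    exact_mod_cast h2 m
  have e : ∀ n, {w : Fin n → ℕ | ∃ i : ℕ, ∀ j : Fin n, w j = d (i + j)} =
      Set.range (win d n) := fun n => by
    ext w
    exact ⟨fun ⟨i, hi⟩ => ⟨i, funext fun j => (hi j).symm⟩, fun ⟨i, hi⟩ => ⟨i, fun j => hi ▸ rfl⟩⟩
  refine tendsto_atTop.2 fun b => ?_
  obtain ⟨C, hC⟩ := exists_nat_ge b
  obtain ⟨N, hN⟩ := complexity hd h3 C
  filter_upwards [eventually_ge_atTop N, eventually_gt_atTop 0] with n h4 h5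
  rw [e, le_div_iff₀ (by exact_mod_cast h5)]
  have h6 : (C : ℝ) * n ≤ (Set.range (win d n)).ncard := by exact_mod_cast (hN n h4).le
  exact (mul_le_mul_of_nonneg_right hC (by positivity)).trans h6

end Pool.Agent.Results.MP_1c76f0_nt.Complexity
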