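import Pool.Agent.MP_1c76f0_nt.H54.Morph

namespace Pool.Agent.Results.MP_1c76f0_nt.NotMorphic

open Filter

theorem result : ∀ d : ℕ → ℕ, (∀ k, d k = 1 ∨ d k = 2) →
    (∀ n : ℕ, 2 ^ n ∣ ∑ k ∈ Finset.range n, d k * 10 ^ k) →
    ∀ (A : Type) [Fintype A] (σ : A → List A) (a : A) (τ : A → ℕ) (θ : ℝ), 1 < θ →
    (∀ᶠ m : ℕ in atTop, θ ^ m ≤ (((fun w : List A => w.flatMap σ)^[m] [a]).length : ℝ)) →
    ∃ᶠ m : ℕ in atTop, ((fun w : List A => w.flatMap σ)^[m] [a]).map τ ≠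
      (List.range ((fun w : List A => w.flatMap σ)^[m] [a]).length).map d := by
  intro d hd h2 A _ σ a τ θ hθ hg
  rw [← not_eventually]
  exact Pool.Agent.MP_1c76f0_nt.H54.not_morphic σ a τ d
    (fun k => by rcases hd k with h | h <;> omega) (by rcases hd 0 with h | h <;> omega) h2 θ hθ hg

end Pool.Agent.Results.MP_1c76f0_nt.NotMorphic
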