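import Pool.Agent.MP_1c76f0_nt.H6.Shift

namespace Pool.Agent.Results.MP_1c76f0_nt.ShiftMismatch

theorem result : ∃ c : ℝ, 0 < c ∧ ∃ N : ℕ, ∀ n : ℕ, N ≤ n → ∀ t : ℕ, 2 ^ n ∣ t → ¬ 5 ∣ t →
    ∀ p : ℕ, 1 ≤ p → p ^ 2 ≤ n →
    c * Real.log n ^ 2 ≤
      (((Finset.range (n - p)).filter
        (fun k => t / 10 ^ k % 10 ≠ t / 10 ^ (k + p) % 10)).card : ℝ) :=
  Pool.Agent.MP_1c76f0_nt.H6.shift_lower

end Pool.Agent.Results.MP_1c76f0_nt.ShiftMismatch
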